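import Pool.Agent.Lib.MP_f83094_an.Props

set_option autoImplicit false

namespace Pool.Agent.Results.MP_f83094_an.Noetherian

open Pool.Agent.Lib.MP_f83094_an

/-- There is a finitely generated complex Hopf algebra, noetherian on both sides and of at most
quadratic growth, with a nonzero element on which every submultiplicative seminorm vanishes. -/
theorem result :
    ∃ (H : Type) (_ : Ring H) (_ : HopfAlgebra ℂ H), Algebra.FiniteType ℂ H ∧
      IsNoetherianRing H ∧ IsNoetherianRing (MulOpposite H) ∧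
      (∃ V : Submodule ℂ H, 1 ∈ V ∧ Algebra.adjoin ℂ (V : Set H) = ⊤ ∧
        ∀ n : ℕ, Module.rank ℂ ↥(V ^ n) ≤ (4 * (n + 1) ^ 2 : ℕ)) ∧
      ∃ h : H, h ≠ 0 ∧
        ∀ p : Seminorm ℂ H, (∀ a b : H, p (a * b) ≤ p a * p b) → p h = 0 :=
  ⟨Sh, inferInstance, shHopf, finiteType_sh, noeth_sh, noeth_sh_op,
    ⟨VV, Submodule.subset_span (Or.inl rfl), adjoin_VV, rank_VV⟩, 1 - gen 1, one_sub_ne,
    seminorm_sh⟩

end Pool.Agent.Results.MP_f83094_an.Noetherian
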